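import Pool.Agent.Helper50.HY.Stmts

/-! Row HLS: localized Hardy inequality with the sharp constant (IMS, HA3). -/

set_option autoImplicit false

namespace Pool.Agent.Helper37.HY

open MeasureTheory Filter Pool.Agent.Helper95 Pool.Agent.Helper95.PW Pool.Agent.Helper95.LN
  Pool.Agent.Helper50.HY

theorem HLS_nrc : Continuous nr := by
  unfold nr
  fun_prop

theorem HLS_dvi {n : ℕ} (k : Fin n) (i : Fin 3) {v : Cf n → ℝ} (h1 : ContDiff ℝ (⊤ : ℕ∞) v)
    (h2 : HasCompactSupport v) : Integrable (fun x => dv k i v x ^ 2) := by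
  have hc : Continuous (dv k i v) := by
    unfold dv
    exact (h1.continuous_fderiv (by simp)).clm_apply continuous_const
  have hs : HasCompactSupport (dv k i v) := by
    unfold dv
    exact (h2.fderiv (𝕜 := ℝ)).comp_left (g := fun L : Cf n →L[ℝ] ℝ =>
      L (Pi.single k (Pi.single i 1))) rfl
  have e : (fun x => dv k i v x ^ 2) = fun x => dv k i v x * dv k i v x := by
    funext x
    ring
  rw [e]
  exact (hc.mul hc).integrable_of_hasCompactSupport hs.mul_left

theorem HLS (hI : ST_IMS) (hA : ST_HA3) : ST_HLS := by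
  obtain ⟨C, hC, hI⟩ := hI
  refine ⟨C, hC, ?_⟩
  intro n M X d u hd hS hu
  have hw : ∀ (s : Fin n → Fin 2) (k : Fin n), ∃ w : Fin M → Cf n → ℝ,
      (∀ j, ContDiff ℝ (⊤ : ℕ∞) (w j) ∧ HasCompactSupport (w j)) ∧
      (∀ j x, nr (x k - X j) < d → w j x = u s x) ∧
      ∑ j, ∫ x, ∑ i, dv k i (w j) x ^ 2 ≤
        (∫ x, ∑ i, dv k i (u s) x ^ 2) + C / d ^ 2 * ∫ x, u s x ^ 2 ∧
      ∑ j, ∫ x, w j x ^ 2 ≤ ∫ x, u s x ^ 2 := fun s k =>
    hI n M k X d (u s) hd hS (hu s).1 (hu s).2
  choose w hw1 hw2 hw3 hw4 using hw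
  set p : (Fin n → Fin 2) → Fin n → Fin M → Cf n → ℝ := fun s k j x =>
    Set.indicator {x : Cf n | nr (x k - X j) < d}
      (fun x => w s k j x ^ 2 / nr (x k - X j) ^ 2) x with hp
  have hmeas : ∀ (k : Fin n) (j : Fin M), MeasurableSet {x : Cf n | nr (x k - X j) < d} := by
    intro k j
    have : Continuous fun x : Cf n => nr (x k - X j) := HLS_nrc.comp (by fun_prop)
    exact (isOpen_lt this continuous_const).measurableSet
  have hpi : ∀ s k j, Integrable (p s k j) := by
    intro s k j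
    obtain ⟨w1, w2⟩ := hw1 s k j
    exact (hA n k (X j) _ w1 w2).1.indicator (hmeas k j)
  have hpe : ∀ s x, (∑ k, near2 X d (x k)) * u s x ^ 2 = ∑ k, ∑ j, p s k j x := by
    intro s x
    rw [Finset.sum_mul]
    refine Finset.sum_congr rfl fun k _ => ?_
    unfold near2
    rw [Finset.sum_mul]
    refine Finset.sum_congr rfl fun j _ => ?_
    rw [hp]
    simp only
    by_cases h : nr (x k - X j) < d
    · rw [if_pos h, Set.indicator_of_mem (show x ∈ {x : Cf n | nr (x k - X j) < d} from h),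
        hw2 s k j x h]
      ring
    · rw [if_neg h, Set.indicator_of_notMem (show x ∉ {x : Cf n | nr (x k - X j) < d} from h)]
      ring
  have hpb : ∀ s k j, ∫ x, p s k j x ≤ 4 * ∫ x, ∑ i, dv k i (w s k j) x ^ 2 := by
    intro s k j
    obtain ⟨w1, w2⟩ := hw1 s k j
    obtain ⟨a1, a2⟩ := hA n k (X j) _ w1 w2
    refine le_trans (integral_mono (hpi s k j) a1 fun x => ?_) a2
    exact Set.indicator_le_self' (fun _ _ => by positivity) x
  have hkk : ∀ s k, ∑ j, ∫ x, p s k j x ≤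
      4 * ((∑ i, ∫ x, dv k i (u s) x ^ 2) + C / d ^ 2 * ∫ x, u s x ^ 2) := by
    intro s k
    have e0 : ∫ x, ∑ i, dv k i (u s) x ^ 2 = ∑ i, ∫ x, dv k i (u s) x ^ 2 :=
      integral_finsetSum _ fun i _ => HLS_dvi k i (hu s).1 (hu s).2
    have h3 := hw3 s k
    rw [e0] at h3
    calc ∑ j, ∫ x, p s k j x ≤ ∑ j, 4 * ∫ x, ∑ i, dv k i (w s k j) x ^ 2 :=
          Finset.sum_le_sum fun j _ => hpb s k j
      _ = 4 * ∑ j, ∫ x, ∑ i, dv k i (w s k j) x ^ 2 := by rw [Finset.mul_sum]
      _ ≤ _ := mul_le_mul_of_nonneg_left h3 (by norm_num)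
  have e1 : one (near2 X d) u = ∑ s, ∑ k, ∑ j, ∫ x, p s k j x := by
    unfold one
    refine Finset.sum_congr rfl fun s _ => ?_
    rw [integral_congr_ae (Eventually.of_forall fun x => hpe s x), integral_finsetSum]
    · refine Finset.sum_congr rfl fun k _ => ?_
      rw [integral_finsetSum]
      intro j _
      exact hpi s k j
    · intro k _
      exact integrable_finsetSum _ fun j _ => hpi s k j
  have e2 : ∑ s : Fin n → Fin 2, ∑ k : Fin n, 4 * ((∑ i, ∫ x, dv k i (u s) x ^ 2) +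
      C / d ^ 2 * ∫ x, u s x ^ 2) = 4 * (kin u + C / d ^ 2 * (n * PW.sq u)) := by
    have e3 : kin u = ∑ s : Fin n → Fin 2, ∑ k : Fin n, ∑ i, ∫ x, dv k i (u s) x ^ 2 := by
      unfold kin PW.sq
      symm
      rw [Finset.sum_comm]
      refine Finset.sum_congr rfl fun k _ => ?_
      exact Finset.sum_comm
    rw [e3]
    unfold PW.sq
    simp only [← Finset.mul_sum, Finset.sum_add_distrib, Finset.sum_const, Finset.card_univ,
      Fintype.card_fin, nsmul_eq_mul]
  rw [e1, ← e2]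
  exact Finset.sum_le_sum fun s _ => Finset.sum_le_sum fun k _ => hkk s k

end Pool.Agent.Helper37.HY
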